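import Mathlib
/-!
# Popular monochromatic differences: the finite inequality
-/

set_option autoImplicit false

open Finset

namespace Pool.Agent.Y940.ES

/-- ordered representations of `n` inside a finite set -/
def r (S : Finset ℕ) (n : ℕ) : ℕ := ((S ×ˢ S).filter (fun p => p.1 + p.2 = n)).card

/-- number of `b ∈ S` with `b + d ∈ S` -/
def del (S : Finset ℕ) (d : ℕ) : ℕ := (S.filter (fun b => b + d ∈ S)).card

/-- number of `b ∈ S` with `b + d ∈ S` and both of colour `i` -/
def deli {k : ℕ} (S : Finset ℕ) (χ : ℕ → Fin k) (i : Fin k) (d : ℕ) : ℕ :=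
  (S.filter (fun b => b + d ∈ S ∧ χ b = i ∧ χ (b + d) = i)).card

theorem card_sq_le (S : Finset ℕ) (K N : ℕ) (hS : ∀ a ∈ S, a ≤ N) (hr : ∀ n, r S n ≤ K) :
    S.card ^ 2 ≤ K * (2 * N + 1) := by
  have h1 : (S ×ˢ S).card = ∑ n ∈ range (2 * N + 1), r S n := by
    refine card_eq_sum_card_fiberwise (f := fun p : ℕ × ℕ => p.1 + p.2) ?_
    intro p hp
    have hp := mem_product.1 (mem_coe.1 hp)
    have := hS _ hp.1
    have := hS _ hp.2
    simp only [coe_range, Set.mem_Iio]
    omega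
  calc S.card ^ 2 = (S ×ˢ S).card := by rw [card_product, sq]
    _ = ∑ n ∈ range (2 * N + 1), r S n := h1
    _ ≤ ∑ n ∈ range (2 * N + 1), K := sum_le_sum fun n _ => hr n
    _ = K * (2 * N + 1) := by simp [mul_comm]

theorem energy_le (S : Finset ℕ) (K : ℕ) (D : Finset ℕ) (hr : ∀ n, r S n ≤ K) :
    ∑ d ∈ D, del S d ^ 2 ≤ K * S.card ^ 2 := by
  classical
  set T : Finset (ℕ × (ℕ × ℕ)) :=
    (D ×ˢ (S ×ˢ S)).filter (fun t => t.2.1 + t.1 ∈ S ∧ t.2.2 + t.1 ∈ S) with hT
  have h1 : ∑ d ∈ D, del S d ^ 2 = T.card := by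
    rw [hT, card_filter, sum_product]
    refine sum_congr rfl fun d _ => ?_
    rw [← card_filter]
    unfold del
    rw [sq, ← card_product]
    congr 1
    ext p
    simp only [mem_product, mem_filter]
    tauto
  set Q : Finset ((ℕ × ℕ) × (ℕ × ℕ)) :=
    ((S ×ˢ S) ×ˢ (S ×ˢ S)).filter (fun t => t.2.1 + t.2.2 = t.1.1 + t.1.2) with hQ
  have h2 : T.card ≤ Q.card := by
    refine card_le_card_of_injOn
      (fun t => ((t.2.1 + t.1, t.2.2), (t.2.2 + t.1, t.2.1))) ?_ ?_
    · intro t ht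
      have ht := mem_coe.1 ht
      rw [hT, mem_filter, mem_product, mem_product] at ht
      refine mem_coe.2 ?_
      rw [hQ, mem_filter, mem_product, mem_product, mem_product]
      refine ⟨⟨⟨ht.2.1, ht.1.2.2⟩, ht.2.2, ht.1.2.1⟩, ?_⟩
      simp only
      ring
    · rintro ⟨d, b, b'⟩ _ ⟨e, c, c'⟩ _ h
      simp only [Prod.mk.injEq] at h
      obtain ⟨⟨h1, h2⟩, h3, h4⟩ := h
      subst h2 h4
      have : d = e := by omega
      subst this
      rfl
  have h3 : Q.card = ∑ p ∈ S ×ˢ S, r S (p.1 + p.2) := by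
    rw [hQ, card_filter, sum_product]
    refine sum_congr rfl fun p _ => ?_
    rw [← card_filter]
    rfl
  calc ∑ d ∈ D, del S d ^ 2 = T.card := h1
    _ ≤ Q.card := h2
    _ = ∑ p ∈ S ×ˢ S, r S (p.1 + p.2) := h3
    _ ≤ ∑ p ∈ S ×ˢ S, K := sum_le_sum fun p _ => hr _
    _ = K * S.card ^ 2 := by rw [sum_const, card_product, smul_eq_mul]; ring

/-- elements of `S` in the `l`-th block of length `L` -/
def blk (S : Finset ℕ) (L l : ℕ) : ℕ := (S.filter (fun a => a / L = l)).card

/-- the popular differences -/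
def pop {k : ℕ} (S : Finset ℕ) (χ : ℕ → Fin k) (l N : ℕ) : Finset ℕ :=
  (Icc 1 N).filter (fun d => ∃ i, l ≤ deli S χ i d)

theorem sum_deli {k : ℕ} (S : Finset ℕ) (χ : ℕ → Fin k) (d : ℕ) :
    (S.filter (fun b => b + d ∈ S ∧ χ b = χ (b + d))).card = ∑ i, deli S χ i d := by
  classical
  rw [card_eq_sum_card_fiberwise (f := χ) (t := univ) (fun _ _ => mem_coe.2 (mem_univ _))]
  refine sum_congr rfl fun i _ => ?_
  unfold deli
  congr 1
  ext b
  simp only [mem_filter]
  constructor
  · rintro ⟨⟨h1, h2, h3⟩, h4⟩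
    exact ⟨h1, h2, h4, h3 ▸ h4⟩
  · rintro ⟨h1, h2, h3, h4⟩
    exact ⟨⟨h1, h2, by rw [h3, h4]⟩, h3⟩

/-- the number of close monochromatic pairs -/
theorem close_pairs {k : ℕ} (S : Finset ℕ) (χ : ℕ → Fin k) (K N L l : ℕ) (hLN : L ≤ N + 1)
    (hr : ∀ n, r S n ≤ K) :
    (∑ d ∈ Icc 1 (L - 1), ((S.filter (fun b => b + d ∈ S ∧ χ b = χ (b + d))).card : ℝ)) ≤
      k * l * L + Real.sqrt ((pop S χ l N).card * K) * S.card := by
  classical
  have h1 : ∀ d ∈ Icc 1 (L - 1), ((S.filter (fun b => b + d ∈ S ∧ χ b = χ (b + d))).card : ℝ) ≤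
      k * l + (if d ∈ pop S χ l N then (del S d : ℝ) else 0) := by
    intro d hd
    have hdN : d ∈ Icc 1 N := by
      rw [mem_Icc] at hd ⊢
      omega
    by_cases hp : d ∈ pop S χ l N
    · rw [if_pos hp]
      have : (S.filter (fun b => b + d ∈ S ∧ χ b = χ (b + d))).card ≤ del S d := by
        refine card_le_card ?_
        intro b hb
        rw [mem_filter] at hb ⊢
        exact ⟨hb.1, hb.2.1⟩
      have h2 : ((S.filter (fun b => b + d ∈ S ∧ χ b = χ (b + d))).card : ℝ) ≤ del S d := by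
        exact_mod_cast this
      have h3 : (0 : ℝ) ≤ k * l := by positivity
      linarith
    · rw [if_neg hp, sum_deli]
      have h2 : ∀ i, deli S χ i d ≤ l := by
        intro i
        by_contra h
        push Not at h
        exact hp (mem_filter.2 ⟨hdN, i, h.le⟩)
      have : ∑ i, deli S χ i d ≤ k * l := by
        calc ∑ i, deli S χ i d ≤ ∑ _i : Fin k, l := sum_le_sum fun i _ => h2 i
          _ = k * l := by simp
      have h4 : ((∑ i, deli S χ i d : ℕ) : ℝ) ≤ ((k * l : ℕ) : ℝ) := by exact_mod_cast this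
      push_cast at h4
      push_cast
      linarith
  have h2 : ∑ d ∈ pop S χ l N, (del S d : ℝ) ≤
      Real.sqrt ((pop S χ l N).card * K) * S.card := by
    have h3 : (∑ d ∈ pop S χ l N, (del S d : ℝ)) ^ 2 ≤
        (pop S χ l N).card * ∑ d ∈ pop S χ l N, (del S d : ℝ) ^ 2 :=
      sq_sum_le_card_mul_sum_sq
    have h4 : ∑ d ∈ pop S χ l N, (del S d : ℝ) ^ 2 ≤ K * (S.card : ℝ) ^ 2 := by
      exact_mod_cast energy_le S K (pop S χ l N) hr
    have h5 : (∑ d ∈ pop S χ l N, (del S d : ℝ)) ^ 2 ≤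
        (Real.sqrt ((pop S χ l N).card * K) * S.card) ^ 2 := by
      rw [mul_pow, Real.sq_sqrt (by positivity)]
      calc (∑ d ∈ pop S χ l N, (del S d : ℝ)) ^ 2
          ≤ (pop S χ l N).card * ∑ d ∈ pop S χ l N, (del S d : ℝ) ^ 2 := h3
        _ ≤ (pop S χ l N).card * (K * (S.card : ℝ) ^ 2) := by gcongr
        _ = (pop S χ l N).card * K * (S.card : ℝ) ^ 2 := by ring
    exact le_of_sq_le_sq h5 (by positivity)
  calc (∑ d ∈ Icc 1 (L - 1), ((S.filter (fun b => b + d ∈ S ∧ χ b = χ (b + d))).card : ℝ))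
      ≤ ∑ d ∈ Icc 1 (L - 1), (k * l + (if d ∈ pop S χ l N then (del S d : ℝ) else 0)) :=
        sum_le_sum h1
    _ = (L - 1 : ℕ) * (k * l) +
          ∑ d ∈ Icc 1 (L - 1), (if d ∈ pop S χ l N then (del S d : ℝ) else 0) := by
        rw [sum_add_distrib]
        simp
    _ ≤ k * l * L + ∑ d ∈ pop S χ l N, (del S d : ℝ) := by
        have h6 : ((L - 1 : ℕ) : ℝ) ≤ L := by exact_mod_cast Nat.sub_le L 1
        have h7 : ((L - 1 : ℕ) : ℝ) * (k * l) ≤ k * l * L := by
          have : (0 : ℝ) ≤ k * l := by positivity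
          nlinarith
        have h8 : ∑ d ∈ Icc 1 (L - 1), (if d ∈ pop S χ l N then (del S d : ℝ) else 0) ≤
            ∑ d ∈ pop S χ l N, (del S d : ℝ) := by
          rw [← sum_filter]
          refine sum_le_sum_of_subset_of_nonneg ?_ fun _ _ _ => by positivity
          intro d hd
          exact (mem_filter.1 hd).2
        linarith
    _ ≤ _ := by linarith

theorem blocks_le {k : ℕ} (S : Finset ℕ) (χ : ℕ → Fin k) (K N L M l : ℕ) (hL : 1 ≤ L)
    (hLN : L ≤ N + 1) (hr : ∀ n, r S n ≤ K) :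
    ∑ j ∈ range M, (blk S L j : ℝ) ^ 2 ≤
      k * (S.card + 2 * (k * l * L + Real.sqrt ((pop S χ l N).card * K) * S.card)) := by
  classical
  set B : ℕ → Fin k → ℕ := fun j i => (S.filter (fun a => a / L = j ∧ χ a = i)).card with hB
  have h1 : ∀ j, blk S L j = ∑ i, B j i := by
    intro j
    unfold blk
    rw [card_eq_sum_card_fiberwise (f := χ) (t := univ) (fun _ _ => mem_coe.2 (mem_univ _))]
    refine sum_congr rfl fun i _ => ?_
    rw [hB]
    simp only
    congr 1
    ext a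
    simp only [mem_filter]
    tauto
  have h2 : ∀ j, (blk S L j : ℝ) ^ 2 ≤ k * ∑ i, (B j i : ℝ) ^ 2 := by
    intro j
    rw [h1 j]
    push_cast
    have := sq_sum_le_card_mul_sum_sq (s := (univ : Finset (Fin k))) (f := fun i => (B j i : ℝ))
    simpa using this
  -- all monochromatic pairs in one block
  set W : Finset (ℕ × ℕ) := (S ×ˢ S).filter (fun p => p.1 / L = p.2 / L ∧ χ p.1 = χ p.2) with hW
  have h3 : ∑ j ∈ range M, ∑ i, (B j i) ^ 2 ≤ W.card := by
    have : ∀ j i, (B j i) ^ 2 =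
        (W.filter (fun p => (p.1 / L, χ p.1) = ((j, i) : ℕ × Fin k))).card := by
      intro j i
      rw [hB, sq, ← card_product]
      congr 1
      ext p
      rw [hW]
      simp only [mem_product, mem_filter, Prod.mk.injEq]
      constructor
      · rintro ⟨⟨h1, h2, h3⟩, h4, h5, h6⟩
        exact ⟨⟨⟨h1, h4⟩, h2.trans h5.symm, h3.trans h6.symm⟩, h2, h3⟩
      · rintro ⟨⟨⟨h1, h4⟩, h5, h6⟩, h2, h3⟩
        exact ⟨⟨h1, h2, h3⟩, h4, h5.symm.trans h2, h6.symm.trans h3⟩
    simp_rw [this]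
    rw [← sum_product' (range M) (univ : Finset (Fin k))
      (fun j i => (W.filter (fun p => (p.1 / L, χ p.1) = ((j, i) : ℕ × Fin k))).card)]
    have hh : ∑ x ∈ range M ×ˢ (univ : Finset (Fin k)),
        (W.filter (fun p => (p.1 / L, χ p.1) = x)).card ≤ W.card := by
      rw [← card_biUnion]
      · refine card_le_card ?_
        intro p hp
        rw [mem_biUnion] at hp
        obtain ⟨x, _, hx⟩ := hp
        exact (mem_filter.1 hx).1
      · intro x _ y _ hxy
        rw [Function.onFun, disjoint_left]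
        intro p hp hq
        exact hxy ((mem_filter.1 hp).2.symm.trans (mem_filter.1 hq).2)
    exact hh
  set V : Finset (ℕ × ℕ) := (Icc 1 (L - 1) ×ˢ S).filter
    (fun p => p.2 + p.1 ∈ S ∧ χ p.2 = χ (p.2 + p.1)) with hV
  have h4 : W.card ≤ S.card + 2 * V.card := by
    have hsub : W ⊆ (S.image (fun a => (a, a))) ∪ (V.image (fun p => (p.2, p.2 + p.1)) ∪
        V.image (fun p => (p.2 + p.1, p.2))) := by
      rintro ⟨a, b⟩ hp
      rw [hW, mem_filter, mem_product] at hp
      simp only at hp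
      obtain ⟨⟨ha, hb⟩, hab, hχ⟩ := hp
      have key : ∀ x y : ℕ, x / L = y / L → x < y → y - x ∈ Icc 1 (L - 1) := by
        intro x y hxy hlt
        rw [mem_Icc]
        refine ⟨by omega, ?_⟩
        have e1 := Nat.div_add_mod x L
        have e2 := Nat.div_add_mod y L
        have e3 := Nat.mod_lt x hL
        have e4 := Nat.mod_lt y hL
        rw [hxy] at e1
        omega
      rw [mem_union, mem_union, mem_image, mem_image, mem_image]
      rcases lt_trichotomy a b with h | h | h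
      · right; left
        refine ⟨(b - a, a), ?_, ?_⟩
        · rw [hV, mem_filter, mem_product]
          simp only
          have e : a + (b - a) = b := by omega
          rw [e]
          exact ⟨⟨key a b hab h, ha⟩, hb, hχ⟩
        · exact Prod.ext rfl (by show a + (b - a) = b; omega)
      · left
        exact ⟨a, ha, by rw [h]⟩
      · right; right
        refine ⟨(a - b, b), ?_, ?_⟩
        · rw [hV, mem_filter, mem_product]
          simp only
          have e : b + (a - b) = a := by omega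
          rw [e]
          exact ⟨⟨key b a hab.symm h, hb⟩, ha, hχ.symm⟩
        · exact Prod.ext (by show b + (a - b) = a; omega) rfl
    calc W.card ≤ _ := card_le_card hsub
      _ ≤ (S.image (fun a => (a, a))).card + ((V.image (fun p => (p.2, p.2 + p.1))) ∪
        V.image (fun p => (p.2 + p.1, p.2))).card := card_union_le _ _
      _ ≤ S.card + (V.card + V.card) := by
          gcongr
          · exact card_image_le
          · exact (card_union_le _ _).trans (add_le_add card_image_le card_image_le)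
      _ = S.card + 2 * V.card := by ring
  have h5 : V.card = ∑ d ∈ Icc 1 (L - 1),
      (S.filter (fun b => b + d ∈ S ∧ χ b = χ (b + d))).card := by
    rw [hV, card_filter, sum_product]
    refine sum_congr rfl fun d _ => ?_
    rw [card_filter]
  have h6 : (V.card : ℝ) ≤ k * l * L + Real.sqrt ((pop S χ l N).card * K) * S.card := by
    rw [h5]
    push_cast
    exact close_pairs S χ K N L l hLN hr
  have h7 : (W.card : ℝ) ≤ S.card + 2 * V.card := by exact_mod_cast h4
  have h8 : ((∑ j ∈ range M, ∑ i, (B j i) ^ 2 : ℕ) : ℝ) ≤ W.card := by exact_mod_cast h3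
  push_cast at h8
  calc ∑ j ∈ range M, (blk S L j : ℝ) ^ 2
      ≤ ∑ j ∈ range M, k * ∑ i, (B j i : ℝ) ^ 2 := sum_le_sum fun j _ => h2 j
    _ = k * ∑ j ∈ range M, ∑ i, (B j i : ℝ) ^ 2 := by rw [mul_sum]
    _ ≤ k * (S.card + 2 * (k * l * L + Real.sqrt ((pop S χ l N).card * K) * S.card)) := by
        gcongr
        linarith

/-- the weighted Cauchy-Schwarz inequality (Abel summation) -/
theorem abel (D : ℕ → ℝ) (lam : ℝ) (hlam : 0 ≤ lam) (M : ℕ)
    (h : ∀ j, 1 ≤ j → j ≤ M → lam * Real.sqrt j ≤ ∑ i ∈ range j, D i) :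
    lam ^ 2 / 4 * ∑ i ∈ range M, (1 : ℝ) / (i + 1) ≤ ∑ i ∈ range M, D i ^ 2 := by
  have h1 : ∀ m, m ≤ M →
      0 ≤ ∑ i ∈ range m, (D i - lam * (Real.sqrt (i + 1) - Real.sqrt i)) / Real.sqrt (i + 1) ∧
      (∑ i ∈ range m, D i - lam * Real.sqrt m) / Real.sqrt m ≤
        ∑ i ∈ range m, (D i - lam * (Real.sqrt (i + 1) - Real.sqrt i)) / Real.sqrt (i + 1) := by
    intro m
    induction m with
    | zero => intro _; simp
    | succ m ih =>
      intro hm
      obtain ⟨ih1, ih2⟩ := ih (by omega)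
      have hpos : (0 : ℝ) < Real.sqrt ((m : ℝ) + 1) := Real.sqrt_pos.2 (by positivity)
      have hT := h (m + 1) (by omega) hm
      push_cast at hT
      have key : (∑ i ∈ range (m + 1), D i - lam * Real.sqrt ((m : ℝ) + 1)) /
          Real.sqrt ((m : ℝ) + 1) ≤ ∑ i ∈ range (m + 1),
            (D i - lam * (Real.sqrt (i + 1) - Real.sqrt i)) / Real.sqrt (i + 1) := by
        rw [sum_range_succ (fun i => (D i - lam * (Real.sqrt (i + 1) - Real.sqrt i)) /
          Real.sqrt (i + 1)), sum_range_succ D]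
        have e : (∑ i ∈ range m, D i + D m - lam * Real.sqrt ((m : ℝ) + 1)) /
            Real.sqrt ((m : ℝ) + 1) =
            (∑ i ∈ range m, D i - lam * Real.sqrt m) / Real.sqrt ((m : ℝ) + 1) +
            (D m - lam * (Real.sqrt ((m : ℝ) + 1) - Real.sqrt m)) / Real.sqrt ((m : ℝ) + 1) := by
          rw [← add_div]
          congr 1
          ring
        rw [e]
        have : (∑ i ∈ range m, D i - lam * Real.sqrt m) / Real.sqrt ((m : ℝ) + 1) ≤
            ∑ i ∈ range m, (D i - lam * (Real.sqrt (i + 1) - Real.sqrt i)) /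
              Real.sqrt (i + 1) := by
          rcases Nat.eq_zero_or_pos m with h0 | h0
          · subst h0
            simp
          · have hT' := h m h0 (by omega)
            have hpos' : (0 : ℝ) < Real.sqrt m := Real.sqrt_pos.2 (by exact_mod_cast h0)
            refine le_trans ?_ ih2
            refine div_le_div_of_nonneg_left (by linarith) hpos' ?_
            exact Real.sqrt_le_sqrt (by linarith)
        linarith
      refine ⟨?_, by push_cast; exact key⟩
      refine le_trans ?_ key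
      exact div_nonneg (by linarith) hpos.le
  have h2 := (h1 M le_rfl).1
  have h3 : lam / 2 * ∑ i ∈ range M, (1 : ℝ) / (i + 1) ≤
      ∑ i ∈ range M, D i / Real.sqrt (i + 1) := by
    have h4 : ∀ i ∈ range M, lam / 2 * ((1 : ℝ) / (i + 1)) ≤
        lam * (Real.sqrt (i + 1) - Real.sqrt i) / Real.sqrt (i + 1) := by
      intro i _
      have hp : (0 : ℝ) < Real.sqrt ((i : ℝ) + 1) := Real.sqrt_pos.2 (by positivity)
      have hq : (0 : ℝ) ≤ Real.sqrt (i : ℝ) := Real.sqrt_nonneg _
      have e1 : Real.sqrt ((i : ℝ) + 1) ^ 2 = i + 1 := Real.sq_sqrt (by positivity)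
      have e2 : Real.sqrt (i : ℝ) ^ 2 = i := Real.sq_sqrt (by positivity)
      have e3 : (1 : ℝ) / (i + 1) = 1 / Real.sqrt ((i : ℝ) + 1) ^ 2 := by rw [e1]
      rw [e3, mul_div_assoc]
      have e4 : lam / 2 * (1 / Real.sqrt ((i : ℝ) + 1) ^ 2) =
          lam * ((1 / 2) / Real.sqrt ((i : ℝ) + 1) ^ 2) := by ring
      rw [e4]
      refine mul_le_mul_of_nonneg_left ?_ hlam
      rw [div_le_div_iff₀ (by positivity) hp]
      have : (1 : ℝ) / 2 ≤ (Real.sqrt ((i : ℝ) + 1) - Real.sqrt i) * Real.sqrt ((i : ℝ) + 1) := by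
        nlinarith [sq_nonneg (Real.sqrt ((i : ℝ) + 1) - Real.sqrt i)]
      nlinarith
    calc lam / 2 * ∑ i ∈ range M, (1 : ℝ) / (i + 1)
        = ∑ i ∈ range M, lam / 2 * ((1 : ℝ) / (i + 1)) := by rw [mul_sum]
      _ ≤ ∑ i ∈ range M, lam * (Real.sqrt (i + 1) - Real.sqrt i) / Real.sqrt (i + 1) :=
          sum_le_sum h4
      _ ≤ ∑ i ∈ range M, D i / Real.sqrt (i + 1) := by
          have : ∑ i ∈ range M, (D i - lam * (Real.sqrt (i + 1) - Real.sqrt i)) /
              Real.sqrt (i + 1) = ∑ i ∈ range M, D i / Real.sqrt (i + 1) -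
              ∑ i ∈ range M, lam * (Real.sqrt (i + 1) - Real.sqrt i) / Real.sqrt (i + 1) := by
            rw [← sum_sub_distrib]
            refine sum_congr rfl fun i _ => ?_
            rw [sub_div]
          linarith
  set Hm := ∑ i ∈ range M, (1 : ℝ) / (i + 1) with hHm
  have hH0 : 0 ≤ Hm := sum_nonneg fun i _ => by positivity
  have h5 : (∑ i ∈ range M, D i / Real.sqrt (i + 1)) ^ 2 ≤ (∑ i ∈ range M, D i ^ 2) * Hm := by
    have := sum_mul_sq_le_sq_mul_sq (range M) D (fun i => 1 / Real.sqrt ((i : ℝ) + 1))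
    have e : ∑ i ∈ range M, (1 / Real.sqrt ((i : ℝ) + 1)) ^ 2 = Hm := by
      refine sum_congr rfl fun i _ => ?_
      rw [div_pow, Real.sq_sqrt (by positivity), one_pow]
    rw [e] at this
    simpa [div_eq_mul_inv] using this
  rcases hH0.lt_or_eq with hpos | hzero
  · have h6 : (lam / 2 * Hm) ^ 2 ≤ (∑ i ∈ range M, D i ^ 2) * Hm := by
      refine le_trans ?_ h5
      exact pow_le_pow_left₀ (by positivity) h3 2
    have h7 : (lam ^ 2 / 4 * Hm) * Hm ≤ (∑ i ∈ range M, D i ^ 2) * Hm := by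
      calc (lam ^ 2 / 4 * Hm) * Hm = (lam / 2 * Hm) ^ 2 := by ring
        _ ≤ _ := h6
    exact le_of_mul_le_mul_right h7 hpos
  · rw [← hzero, mul_zero]
    exact sum_nonneg fun i _ => sq_nonneg _

/-- prefix sums of the block counts -/
theorem sum_blk (S : Finset ℕ) (L : ℕ) (hL : 1 ≤ L) (j : ℕ) :
    ∑ i ∈ range j, blk S L i = (S.filter (fun a => a < j * L)).card := by
  classical
  have : (S.filter (fun a => a < j * L)).card =
      ∑ i ∈ range j, ((S.filter (fun a => a < j * L)).filter (fun a => a / L = i)).card := by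
    refine card_eq_sum_card_fiberwise (f := fun a : ℕ => a / L) ?_
    intro a ha
    have ha := (mem_filter.1 (mem_coe.1 ha)).2
    simp only [coe_range, Set.mem_Iio]
    exact (Nat.div_lt_iff_lt_mul hL).2 ha
  rw [this]
  refine sum_congr rfl fun i hi => ?_
  unfold blk
  congr 1
  ext a
  simp only [mem_filter]
  constructor
  · rintro ⟨h1, h2⟩
    refine ⟨⟨h1, ?_⟩, h2⟩
    rw [← Nat.div_lt_iff_lt_mul hL, h2]
    exact mem_range.1 hi
  · rintro ⟨⟨h1, _⟩, h2⟩
    exact ⟨h1, h2⟩

/-- **The finite inequality.** -/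
theorem finite_ineq {k : ℕ} (S : Finset ℕ) (χ : ℕ → Fin k) (K N L M l : ℕ) (hL : 1 ≤ L)
    (hLN : L ≤ N + 1) (hS : ∀ a ∈ S, a ≤ N) (hr : ∀ n, r S n ≤ K) (lam : ℝ) (hlam : 0 ≤ lam)
    (h : ∀ j, 1 ≤ j → j ≤ M → lam * Real.sqrt j ≤ (S.filter (fun a => a < j * L)).card) :
    lam ^ 2 / 4 * ∑ i ∈ range M, (1 : ℝ) / (i + 1) ≤
      k * (Real.sqrt (K * (2 * N + 1)) + 2 * (k * l * L +
        Real.sqrt ((pop S χ l N).card * K) * Real.sqrt (K * (2 * N + 1)))) := by
  have h1 := abel (fun j => (blk S L j : ℝ)) lam hlam M (by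
    intro j hj1 hj2
    have := h j hj1 hj2
    rw [← sum_blk S L hL j] at this
    push_cast at this
    exact this)
  have h2 := blocks_le S χ K N L M l hL hLN hr
  have h3 : (S.card : ℝ) ≤ Real.sqrt (K * (2 * N + 1)) := by
    refine Real.le_sqrt_of_sq_le ?_
    exact_mod_cast card_sq_le S K N hS hr
  refine (h1.trans h2).trans ?_
  gcongr

end Pool.Agent.Y940.ES
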