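import Mathlib
import Pool.Agent.Y940.ES.Core
/-!
# Popular monochromatic differences: from the finite inequality to sets
-/

set_option autoImplicit false

open Finset

namespace Pool.Agent.Y940.ES

/-- `r_A(n)` -/
noncomputable def rep (A : Set ℕ) (n : ℕ) : ℕ :=
  {p : ℕ × ℕ | p.1 ∈ A ∧ p.2 ∈ A ∧ p.1 + p.2 = n}.ncard

/-- the number of representations of `d` as a difference of two elements of `A ∩ [0, N]` -/
noncomputable def dif (A : Set ℕ) (N d : ℕ) : ℕ :=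
  {b : ℕ | b ∈ A ∧ b + d ∈ A ∧ b + d ≤ N}.ncard

theorem rep_finite (A : Set ℕ) (n : ℕ) :
    {p : ℕ × ℕ | p.1 ∈ A ∧ p.2 ∈ A ∧ p.1 + p.2 = n}.Finite := by
  refine (Set.finite_Iic ((n, n) : ℕ × ℕ)).subset ?_
  rintro ⟨a, b⟩ ⟨_, _, h⟩
  simp only at h
  exact ⟨by show a ≤ n; omega, by show b ≤ n; omega⟩

theorem rep_mono {A B : Set ℕ} (h : A ⊆ B) (n : ℕ) : rep A n ≤ rep B n :=
  Set.ncard_le_ncard (fun _ hp => ⟨h hp.1, h hp.2.1, hp.2.2⟩) (rep_finite B n)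

theorem dif_finite (A : Set ℕ) (N d : ℕ) : {b : ℕ | b ∈ A ∧ b + d ∈ A ∧ b + d ≤ N}.Finite := by
  refine (Set.finite_Iic N).subset ?_
  rintro b ⟨_, _, h⟩
  show b ≤ N
  omega

theorem dif_mono {A B : Set ℕ} (h : A ⊆ B) (N d : ℕ) : dif A N d ≤ dif B N d :=
  Set.ncard_le_ncard (fun _ hp => ⟨h hp.1, h hp.2.1, hp.2.2⟩) (dif_finite B N d)

open Classical in
/-- `A ∩ [0, N]` -/
noncomputable def fin (A : Set ℕ) (N : ℕ) : Finset ℕ := (range (N + 1)).filter (fun a => a ∈ A)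

theorem mem_fin {A : Set ℕ} {N a : ℕ} : a ∈ fin A N ↔ a ∈ A ∧ a ≤ N := by
  classical
  unfold fin
  rw [mem_filter, mem_range, and_comm, Nat.lt_succ_iff]

theorem r_fin_le (A : Set ℕ) (N n : ℕ) : r (fin A N) n ≤ rep A n := by
  unfold r rep
  rw [← Set.ncard_coe_finset]
  refine Set.ncard_le_ncard ?_ (rep_finite A n)
  intro p hp
  have hp := mem_filter.1 (mem_coe.1 hp)
  have h1 := mem_product.1 hp.1
  exact ⟨(mem_fin.1 h1.1).1, (mem_fin.1 h1.2).1, hp.2⟩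

theorem deli_fin {k : ℕ} (A : Set ℕ) (χ : ℕ → Fin k) (N d : ℕ) (i : Fin k) :
    deli (fin A N) χ i d = dif {a | a ∈ A ∧ χ a = i} N d := by
  unfold deli dif
  rw [← Set.ncard_coe_finset]
  congr 1
  ext b
  rw [mem_coe, mem_filter, mem_fin, mem_fin]
  simp only [Set.mem_ofPred_eq]
  constructor
  · rintro ⟨⟨h1, h2⟩, ⟨h3, h4⟩, h5, h6⟩
    exact ⟨⟨h1, h5⟩, ⟨h3, h6⟩, h4⟩
  · rintro ⟨⟨h1, h5⟩, ⟨h3, h6⟩, h4⟩
    exact ⟨⟨h1, by omega⟩, ⟨h3, h4⟩, h5, h6⟩

/-- **Quantitative form.** -/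
theorem quant {k : ℕ} (S : Finset ℕ) (χ : ℕ → Fin k) (K N L M l : ℕ) (c : ℝ) (hc : 0 ≤ c)
    (hk : 1 ≤ k) (hl : 1 ≤ l) (hL : 1 ≤ L) (hM : 1 ≤ M) (hLN : L ≤ N + 1)
    (hS : ∀ a ∈ S, a ≤ N) (hr : ∀ n, r S n ≤ K)
    (h : ∀ j, 1 ≤ j → j ≤ M →
      c * Real.sqrt ((j * L : ℕ) : ℝ) ≤ (S.filter (fun a => a < j * L)).card)
    (hlog : 16 * k ^ 2 * l ≤ c ^ 2 * Real.log M)
    (hX : k * Real.sqrt (K * (2 * N + 1)) ≤ L) :
    (L : ℝ) ^ 2 ≤ 4 * k ^ 2 * K ^ 2 * (2 * N + 1) * (pop S χ l N).card := by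
  have h1 := finite_ineq S χ K N L M l hL hLN hS hr (c * Real.sqrt L) (by positivity) (by
    intro j hj1 hj2
    have := h j hj1 hj2
    rw [Nat.cast_mul, mul_comm (j : ℝ) (L : ℝ), Real.sqrt_mul (by positivity)] at this
    rw [mul_assoc]
    exact this)
  have hH : Real.log M ≤ ∑ i ∈ range M, (1 : ℝ) / (i + 1) := by
    have h2 := log_add_one_le_harmonic M
    have h3 : ((harmonic M : ℚ) : ℝ) = ∑ i ∈ range M, (1 : ℝ) / (i + 1) := by
      rw [harmonic]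
      push_cast
      refine sum_congr rfl fun i _ => ?_
      rw [one_div]
    rw [h3] at h2
    refine le_trans ?_ h2
    refine Real.log_le_log (by exact_mod_cast hM) (by push_cast; linarith)
  rw [mul_pow, Real.sq_sqrt (by positivity)] at h1
  set X := Real.sqrt ((K : ℝ) * (2 * N + 1)) with hXdef
  set Y := Real.sqrt (((pop S χ l N).card : ℝ) * K) with hYdef
  have hX0 : 0 ≤ X := Real.sqrt_nonneg _
  have hY0 : 0 ≤ Y := Real.sqrt_nonneg _
  have hk' : (1 : ℝ) ≤ k := by exact_mod_cast hk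
  have hl' : (1 : ℝ) ≤ l := by exact_mod_cast hl
  have hL' : (1 : ℝ) ≤ L := by exact_mod_cast hL
  have h4 : c ^ 2 * L / 4 * Real.log M ≤
      c ^ 2 * L / 4 * ∑ i ∈ range M, (1 : ℝ) / (i + 1) := by gcongr
  have h5 : 4 * k ^ 2 * l * (L : ℝ) ≤ c ^ 2 * L / 4 * Real.log M := by
    have := mul_le_mul_of_nonneg_right hlog (by positivity : (0 : ℝ) ≤ L / 4)
    nlinarith
  have hkl : (1 : ℝ) ≤ (k : ℝ) ^ 2 * l := by
    have : (1 : ℝ) ≤ (k : ℝ) ^ 2 := one_le_pow₀ hk'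
    nlinarith
  have h6 : 4 * k ^ 2 * l * (L : ℝ) ≤ k * (X + 2 * (k * l * L + Y * X)) :=
    h5.trans (h4.trans h1)
  have h7 : (L : ℝ) ≤ 2 * (k * (Y * X)) := by
    have h8 : (L : ℝ) ≤ (k : ℝ) ^ 2 * l * L := by nlinarith
    nlinarith
  have h9 : (L : ℝ) ^ 2 ≤ (2 * (k * (Y * X))) ^ 2 := pow_le_pow_left₀ (by positivity) h7 2
  refine h9.trans (le_of_eq ?_)
  have e1 : X ^ 2 = K * (2 * N + 1) := Real.sq_sqrt (by positivity)
  have e2 : Y ^ 2 = (pop S χ l N).card * K := Real.sq_sqrt (by positivity)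
  calc (2 * (k * (Y * X))) ^ 2 = 4 * k ^ 2 * Y ^ 2 * X ^ 2 := by ring
    _ = _ := by rw [e1, e2]; ring

/-- from differences with three representations to sums with four representations -/
theorem sums_of_pop {k : ℕ} (A : Set ℕ) (χ : ℕ → Fin k) (K N : ℕ) (hr : ∀ n, rep A n ≤ K)
    [DecidablePred fun n => ∃ i : Fin k, 4 ≤ rep {a | a ∈ A ∧ χ a = i} n] :
    (pop (fin A N) χ 3 N).card ≤
      K ^ 2 * ((Icc 1 (2 * N)).filter
        (fun n => ∃ i : Fin k, 4 ≤ rep {a | a ∈ A ∧ χ a = i} n)).card := by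
  classical
  set S := fin A N with hS
  set G := (Icc 1 (2 * N)).filter (fun n => ∃ i : Fin k, 4 ≤ rep {a | a ∈ A ∧ χ a = i} n) with hG
  -- for each popular `d` the data
  have key : ∀ d ∈ pop S χ 3 N, ∃ b b' : ℕ, b ∈ S ∧ b' ∈ S ∧ b + d ∈ S ∧ b' + d ∈ S ∧
      b + b' + d ∈ G := by
    intro d hd
    unfold pop at hd
    rw [mem_filter, mem_Icc] at hd
    obtain ⟨⟨hd1, hdN⟩, i, hi⟩ := hd
    unfold deli at hi
    obtain ⟨T, hTs, hT3⟩ := exists_subset_card_eq hi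
    obtain ⟨x, y, z, hxy, hxz, hyz, rfl⟩ := card_eq_three.1 hT3
    have hx := mem_filter.1 (hTs (by simp : x ∈ ({x, y, z} : Finset ℕ)))
    have hy := mem_filter.1 (hTs (by simp : y ∈ ({x, y, z} : Finset ℕ)))
    have hz := mem_filter.1 (hTs (by simp : z ∈ ({x, y, z} : Finset ℕ)))
    have main : ∀ b b' : ℕ, (b ∈ S ∧ b + d ∈ S ∧ χ b = i ∧ χ (b + d) = i) →
        (b' ∈ S ∧ b' + d ∈ S ∧ χ b' = i ∧ χ (b' + d) = i) → b < b' → b' ≠ b + d →
        ∃ b b' : ℕ, b ∈ S ∧ b' ∈ S ∧ b + d ∈ S ∧ b' + d ∈ S ∧ b + b' + d ∈ G := by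
      rintro b b' ⟨h1, h2, h3, h4⟩ ⟨h5, h6, h7, h8⟩ hlt hne
      refine ⟨b, b', h1, h5, h2, h6, ?_⟩
      rw [hG, mem_filter, mem_Icc]
      have e1 := (mem_fin.1 h2).2
      have e2 := (mem_fin.1 h5).2
      refine ⟨⟨by omega, by omega⟩, i, ?_⟩
      have hsub : (({(b + d, b'), (b', b + d), (b' + d, b), (b, b' + d)} : Finset (ℕ × ℕ)) :
          Set (ℕ × ℕ)) ⊆ {p : ℕ × ℕ | p.1 ∈ {a | a ∈ A ∧ χ a = i} ∧
            p.2 ∈ {a | a ∈ A ∧ χ a = i} ∧ p.1 + p.2 = b + b' + d} := by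
        intro p hp
        simp only [coe_insert, coe_singleton, Set.mem_insert_iff, Set.mem_singleton_iff] at hp
        rcases hp with rfl | rfl | rfl | rfl
        · exact ⟨⟨(mem_fin.1 h2).1, h4⟩, ⟨(mem_fin.1 h5).1, h7⟩, by simp only; omega⟩
        · exact ⟨⟨(mem_fin.1 h5).1, h7⟩, ⟨(mem_fin.1 h2).1, h4⟩, by simp only; omega⟩
        · exact ⟨⟨(mem_fin.1 h6).1, h8⟩, ⟨(mem_fin.1 h1).1, h3⟩, by simp only; omega⟩
        · exact ⟨⟨(mem_fin.1 h1).1, h3⟩, ⟨(mem_fin.1 h6).1, h8⟩, by simp only; omega⟩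
      have hcard : ({(b + d, b'), (b', b + d), (b' + d, b), (b, b' + d)} :
          Finset (ℕ × ℕ)).card = 4 := by
        rw [card_insert_of_notMem, card_insert_of_notMem, card_insert_of_notMem,
          card_singleton]
        · simp only [mem_singleton, Prod.mk.injEq]; omega
        · simp only [mem_insert, mem_singleton, Prod.mk.injEq]; omega
        · simp only [mem_insert, mem_singleton, Prod.mk.injEq]; omega
      rw [← hcard, ← Set.ncard_coe_finset]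
      exact Set.ncard_le_ncard hsub (rep_finite _ _)
    -- choose two of the three numbers
    have pick : ∀ b₁ b₂ b₃ : ℕ, (b₁ ∈ S ∧ b₁ + d ∈ S ∧ χ b₁ = i ∧ χ (b₁ + d) = i) →
        (b₂ ∈ S ∧ b₂ + d ∈ S ∧ χ b₂ = i ∧ χ (b₂ + d) = i) →
        (b₃ ∈ S ∧ b₃ + d ∈ S ∧ χ b₃ = i ∧ χ (b₃ + d) = i) → b₁ < b₂ → b₁ < b₃ → b₂ ≠ b₃ →
        ∃ b b' : ℕ, b ∈ S ∧ b' ∈ S ∧ b + d ∈ S ∧ b' + d ∈ S ∧ b + b' + d ∈ G := by
      intro b₁ b₂ b₃ h1 h2 h3 h12 h13 h23
      by_cases h : b₂ = b₁ + d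
      · exact main b₁ b₃ h1 h3 h13 (by omega)
      · exact main b₁ b₂ h1 h2 h12 h
    rcases lt_trichotomy x y with h1 | h1 | h1
    · rcases lt_trichotomy x z with h2 | h2 | h2
      · exact pick x y z hx hy hz h1 h2 hyz
      · exact absurd h2 hxz
      · exact pick z x y hz hx hy h2 (by omega) hxy
    · exact absurd h1 hxy
    · rcases lt_trichotomy y z with h2 | h2 | h2
      · exact pick y x z hy hx hz h1 h2 hxz
      · exact absurd h2 hyz
      · exact pick z x y hz hx hy (by omega) h2 hxy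
  choose! b b' hb hb' hbd hbd' hG' using key
  -- count the popular differences by the sum
  have hcount : (pop S χ 3 N).card ≤ G.card * K ^ 2 := by
    refine card_le_mul_card_image_of_maps_to (f := fun d => b d + b' d + d) hG' (K ^ 2) ?_ |>.trans
      (le_of_eq (mul_comm _ _))
    intro n hn
    set R := (S ×ˢ S).filter (fun p => p.1 + p.2 = n) with hR
    have h1 : ((pop S χ 3 N).filter (fun d => b d + b' d + d = n)).card ≤ (R ×ˢ R).card := by
      refine card_le_card_of_injOn (fun d => ((b d + d, b' d), (b' d + d, b d))) ?_ ?_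
      · intro d hd
        have hd := mem_filter.1 (mem_coe.1 hd)
        refine mem_coe.2 ?_
        rw [mem_product, hR, mem_filter, mem_filter, mem_product, mem_product]
        refine ⟨⟨⟨hbd d hd.1, hb' d hd.1⟩, ?_⟩, ⟨hbd' d hd.1, hb d hd.1⟩, ?_⟩
        · have := hd.2; simp only; omega
        · have := hd.2; simp only; omega
      · intro d _ e _ h
        simp only [Prod.mk.injEq] at h
        omega
    rw [card_product] at h1
    have h2 : R.card ≤ K := (r_fin_le A N n).trans (hr n)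
    calc _ ≤ R.card * R.card := h1
      _ ≤ K * K := Nat.mul_le_mul h2 h2
      _ = K ^ 2 := (sq K).symm
  rw [mul_comm]
  exact hcount

/-- the counting function of a set with `a_n ≤ C n²` -/
theorem count_ge (A : Set ℕ) (hA : A.Infinite) (C : ℕ)
    (hC : ∀ n ≥ 1, Nat.nth (fun a => a ∈ A) (n - 1) ≤ C * n ^ 2) (N x : ℕ)
    (hx : 16 * (C + 1) ≤ x) (hxN : x ≤ N + 1) :
    1 / Real.sqrt (4 * (C + 1)) * Real.sqrt (x : ℝ) ≤
      ((fin A N).filter (fun a => a < x)).card := by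
  classical
  set n : ℕ := Nat.sqrt (x / (C + 1)) with hn
  have hn2 : n ^ 2 * (C + 1) ≤ x := by
    have h1 : n ^ 2 ≤ x / (C + 1) := by rw [hn, sq]; exact Nat.sqrt_le _
    calc n ^ 2 * (C + 1) ≤ x / (C + 1) * (C + 1) := Nat.mul_le_mul_right _ h1
      _ ≤ x := Nat.div_mul_le_self _ _
  have hn4 : 4 ≤ n := by
    rw [hn, Nat.le_sqrt, Nat.le_div_iff_mul_le (by omega)]
    linarith
  have hcard : n ≤ ((fin A N).filter (fun a => a < x)).card := by
    have : (range n).card ≤ ((fin A N).filter (fun a => a < x)).card := by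
      refine card_le_card_of_injOn (fun i => Nat.nth (fun a => a ∈ A) i) ?_ ?_
      · intro i hi
        have hi := mem_range.1 (mem_coe.1 hi)
        refine mem_coe.2 ?_
        have h1 : Nat.nth (fun a => a ∈ A) i ≤ Nat.nth (fun a => a ∈ A) (n - 1) :=
          (Nat.nth_monotone hA) (by omega)
        have h2 := hC n (by omega)
        have h3 : C * n ^ 2 < x := by nlinarith
        rw [mem_filter, mem_fin]
        simp only
        refine ⟨⟨Nat.nth_mem_of_infinite hA i, by omega⟩, by omega⟩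
      · exact (Nat.nth_injective hA).injOn
    simpa using this
  have h5 : Real.sqrt (x : ℝ) ≤ Real.sqrt (4 * (C + 1)) * n := by
    rw [Real.sqrt_le_left (by positivity), mul_pow, Real.sq_sqrt (by positivity)]
    have h6 : x < (C + 1) * (n + 1) ^ 2 := by
      have h7 : x / (C + 1) < (n + 1) ^ 2 := by
        have := Nat.lt_succ_sqrt (x / (C + 1))
        rw [sq, hn]
        exact this
      rw [Nat.div_lt_iff_lt_mul (by omega)] at h7
      linarith
    have h8 : (n + 1) ^ 2 ≤ 4 * n ^ 2 := by nlinarith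
    have h9 : x ≤ (C + 1) * (4 * n ^ 2) := h6.le.trans (Nat.mul_le_mul_left _ h8)
    have h10 : (x : ℝ) ≤ ((C + 1) * (4 * n ^ 2) : ℕ) := by exact_mod_cast h9
    push_cast at h10
    linarith
  have h6 : (0 : ℝ) < Real.sqrt (4 * ((C : ℝ) + 1)) := Real.sqrt_pos.2 (by positivity)
  calc 1 / Real.sqrt (4 * (C + 1)) * Real.sqrt (x : ℝ)
      ≤ 1 / Real.sqrt (4 * (C + 1)) * (Real.sqrt (4 * (C + 1)) * n) := by gcongr
    _ = n := by field_simp
    _ ≤ _ := by exact_mod_cast hcard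

end Pool.Agent.Y940.ES
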