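import Mathlib
import Pool.Agent.Y940.ES.Asym
/-!
# Popular monochromatic differences in sets with `a_n ≤ C n²` and bounded `r_A`
-/

set_option autoImplicit false

open Finset Filter

namespace Pool.Agent.Y940.ES

/-- `a_n`, counting from `n = 1` -/
noncomputable def elt (A : Set ℕ) (n : ℕ) : ℕ := Nat.nth (fun a => a ∈ A) (n - 1)

theorem aux_const (C k l : ℝ) (h : 0 < C + 1) :
    16 * k ^ 2 * l = 1 / (4 * (C + 1)) * (64 * (C + 1) * (k ^ 2 * l)) := by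
  field_simp
  ring

theorem popular (C K : ℕ) : ∃ B : ℝ, 1 ≤ B ∧ ∀ A : Set ℕ, A.Infinite →
    (∀ n ≥ 1, elt A n ≤ C * n ^ 2) → (∀ n, rep A n ≤ K) →
    ∀ (k l : ℕ), 1 ≤ l → ∀ (χ : ℕ → Fin k) (N : ℕ), Real.exp (B * (k ^ 2 * l)) ≤ N →
      N * Real.exp (-(B * (k ^ 2 * l))) ≤ ((pop (fin A N) χ l N).card : ℝ) := by
  set a : ℝ := 64 * (C + 1) with ha
  set K' : ℝ := (K : ℝ) + 1 with hK'
  have ha1 : 64 ≤ a := by rw [ha]; have : (0 : ℝ) ≤ C := by positivity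
                          linarith
  have hK1 : 1 ≤ K' := by rw [hK']; have : (0 : ℝ) ≤ K := by positivity
                          linarith
  refine ⟨2 * a + 192 * K' ^ 2, by nlinarith, ?_⟩
  intro A hA hC hr k l hl χ N hN
  have hk : 1 ≤ k := by
    by_contra h
    have : k = 0 := by omega
    subst this
    exact Fin.elim0 (χ 0)
  have hk' : (1 : ℝ) ≤ k := by exact_mod_cast hk
  have hl' : (1 : ℝ) ≤ l := by exact_mod_cast hl
  set t : ℝ := (k : ℝ) ^ 2 * l with ht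
  have hk2 : (1 : ℝ) ≤ (k : ℝ) ^ 2 := one_le_pow₀ hk'
  have ht1 : 1 ≤ t := by rw [ht]; nlinarith
  have hkt : (k : ℝ) ^ 2 ≤ t := by rw [ht]; nlinarith
  set E : ℝ := Real.exp (a * t) with hE
  have hE1 : 1 ≤ E := Real.one_le_exp (by positivity)
  set M : ℕ := ⌈E⌉₊ with hM
  have hM1 : 1 ≤ M := Nat.one_le_iff_ne_zero.2 (by
    rw [hM]; exact (Nat.ceil_pos.2 (by linarith)).ne')
  have hME : (M : ℝ) ≤ 2 * E := by
    have := Nat.ceil_lt_add_one (by linarith : 0 ≤ E)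
    rw [← hM] at this
    linarith
  have hEM : E ≤ M := Nat.le_ceil _
  -- the size of `exp (B t)`
  have hB : Real.exp ((2 * a + 192 * K' ^ 2) * t) = E ^ 2 * Real.exp (192 * K' ^ 2 * t) := by
    rw [hE, ← Real.exp_nat_mul, ← Real.exp_add]
    congr 1
    push_cast
    ring
  have hexp : 192 * K' ^ 2 * t + 1 ≤ Real.exp (192 * K' ^ 2 * t) := Real.add_one_le_exp _
  have hNbig : E ^ 2 * (192 * K' ^ 2 * t) ≤ N := by
    refine le_trans ?_ hN
    rw [hB]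
    have : (0 : ℝ) ≤ E ^ 2 := by positivity
    nlinarith
  have hK2 : 1 ≤ K' ^ 2 := one_le_pow₀ hK1
  have hEa : a ≤ E := by
    have h1 : a * t + 1 ≤ E := Real.add_one_le_exp _
    nlinarith
  have hE2 : E ≤ E ^ 2 := by nlinarith
  have hE20 : (0 : ℝ) ≤ E ^ 2 := by positivity
  have hN192 : 192 * E ^ 2 ≤ N := by
    refine le_trans ?_ hNbig
    have : 1 ≤ K' ^ 2 * t := by nlinarith
    nlinarith
  set L : ℕ := (N + 1) / M with hL
  have hLM : L * M ≤ N + 1 := Nat.div_mul_le_self _ _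
  have hLlow : (N : ℝ) / (4 * E) ≤ L := by
    have h1 : N + 1 < M * (L + 1) := Nat.lt_mul_div_succ (N + 1) hM1
    have h2 : (N : ℝ) + 1 < M * (L + 1) := by exact_mod_cast h1
    rw [div_le_iff₀ (by positivity)]
    nlinarith [(by positivity : (0 : ℝ) ≤ L)]
  have hL16 : (16 * (C + 1) : ℝ) ≤ L := by
    refine le_trans ?_ hLlow
    rw [le_div_iff₀ (by positivity)]
    have : a * (192 * E) ≤ N := by nlinarith
    nlinarith
  have hL16' : 16 * (C + 1) ≤ L := by exact_mod_cast hL16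
  have hL1 : 1 ≤ L := by omega
  have hLN : L ≤ N + 1 := Nat.div_le_self _ _
  have hN1 : (1 : ℝ) ≤ N := by nlinarith
  set c : ℝ := 1 / Real.sqrt (4 * (C + 1)) with hc
  have hc2 : c ^ 2 = 1 / (4 * (C + 1)) := by
    rw [hc, div_pow, Real.sq_sqrt (by positivity), one_pow]
  have h1 := quant (fin A N) χ K N L M l c (by positivity) hk hl hL1 hM1 hLN
    (fun a ha => (mem_fin.1 ha).2) (fun n => (r_fin_le A N n).trans (hr n)) (by
      intro j hj1 hj2
      refine count_ge A hA C hC N (j * L) ?_ ?_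
      · nlinarith
      · calc j * L ≤ M * L := Nat.mul_le_mul_right _ hj2
          _ = L * M := mul_comm _ _
          _ ≤ N + 1 := hLM) (by
      have h2 : a * t ≤ Real.log M := by
        rw [Real.le_log_iff_exp_le (by exact_mod_cast hM1)]
        exact hEM
      calc (16 : ℝ) * k ^ 2 * l = c ^ 2 * (a * t) := by
            rw [hc2]
            exact aux_const C k l (by positivity)
        _ ≤ c ^ 2 * Real.log M := by gcongr) (by
      have h3 : (k * Real.sqrt (K * (2 * N + 1))) ^ 2 ≤ (L : ℝ) ^ 2 := by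
        rw [mul_pow, Real.sq_sqrt (by positivity)]
        have h4 : (N / (4 * E)) ^ 2 ≤ (L : ℝ) ^ 2 := pow_le_pow_left₀ (by positivity) hLlow 2
        refine le_trans ?_ h4
        rw [div_pow, le_div_iff₀ (by positivity)]
        have h5 : (K : ℝ) ≤ K' := by rw [hK']; linarith
        have h6 : (K : ℝ) * (2 * N + 1) ≤ K' ^ 2 * (3 * N) := by
          have : K' ≤ K' ^ 2 := by nlinarith
          have h7 : (2 * (N : ℝ) + 1) ≤ 3 * N := by linarith
          exact mul_le_mul (h5.trans this) h7 (by positivity) (by positivity)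
        calc (k : ℝ) ^ 2 * (K * (2 * N + 1)) * (4 * E) ^ 2
            ≤ t * (K' ^ 2 * (3 * N)) * (4 * E) ^ 2 := by gcongr
          _ = (E ^ 2 * (192 * K' ^ 2 * t)) * N / 4 := by ring
          _ ≤ N * N / 4 := by gcongr
          _ ≤ (N : ℝ) ^ 2 := by nlinarith
      exact le_of_sq_le_sq h3 (by positivity))
  have h4 : (N / (4 * E)) ^ 2 ≤ (L : ℝ) ^ 2 := pow_le_pow_left₀ (by positivity) hLlow 2
  have h5 := h4.trans h1
  set h : ℝ := ((pop (fin A N) χ l N).card : ℝ) with hh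
  have hh0 : 0 ≤ h := by positivity
  have h6 : (N : ℝ) ^ 2 ≤ (E ^ 2 * (192 * K' ^ 2 * t)) * N * h := by
    rw [div_pow, div_le_iff₀ (by positivity)] at h5
    refine h5.trans ?_
    have hKK : (K : ℝ) ^ 2 ≤ K' ^ 2 := by
      have h5 : (K : ℝ) ≤ K' := by rw [hK']; linarith
      exact pow_le_pow_left₀ (by positivity) h5 2
    have h7 : (2 * (N : ℝ) + 1) ≤ 3 * N := by linarith
    calc 4 * (k : ℝ) ^ 2 * K ^ 2 * (2 * N + 1) * h * (4 * E) ^ 2
        ≤ 4 * t * K' ^ 2 * (3 * N) * h * (4 * E) ^ 2 := by gcongr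
      _ = _ := by ring
  have h7 : (N : ℝ) ≤ Real.exp ((2 * a + 192 * K' ^ 2) * t) * h := by
    have h8 : (N : ℝ) ≤ (E ^ 2 * (192 * K' ^ 2 * t)) * h := by
      have : (N : ℝ) * N ≤ ((E ^ 2 * (192 * K' ^ 2 * t)) * h) * N := by nlinarith
      exact le_of_mul_le_mul_right this (by linarith)
    refine h8.trans ?_
    rw [hB]
    gcongr
    linarith
  rw [Real.exp_neg, ← div_eq_mul_inv, div_le_iff₀ (Real.exp_pos _)]
  linarith

open Classical in
theorem popular_sums (C K : ℕ) : ∃ B : ℝ, 1 ≤ B ∧ ∀ A : Set ℕ, A.Infinite →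
    (∀ n ≥ 1, elt A n ≤ C * n ^ 2) → (∀ n, rep A n ≤ K) →
    ∀ (k : ℕ) (χ : ℕ → Fin k) (N : ℕ), Real.exp (B * k ^ 2) ≤ N →
      N * Real.exp (-(B * k ^ 2)) ≤
        (((Icc 1 N).filter (fun n => ∃ i : Fin k, 4 ≤ rep {a | a ∈ A ∧ χ a = i} n)).card : ℝ) := by
  obtain ⟨B, hB1, hB⟩ := popular C K
  refine ⟨3 * B + 4 * (K + 1) ^ 2, by nlinarith [(by positivity : (0 : ℝ) ≤ K)], ?_⟩
  intro A hA hC hr k χ N hN
  have hk : 1 ≤ k := by
    by_contra h
    have : k = 0 := by omega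
    subst this
    exact Fin.elim0 (χ 0)
  have hk' : (1 : ℝ) ≤ k := by exact_mod_cast hk
  have hk2 : (1 : ℝ) ≤ (k : ℝ) ^ 2 := one_le_pow₀ hk'
  set K' : ℝ := (K : ℝ) + 1 with hK'
  have hK1 : 1 ≤ K' := by rw [hK']; have : (0 : ℝ) ≤ K := by positivity
                          linarith
  have hK2 : 1 ≤ K' ^ 2 := one_le_pow₀ hK1
  set E : ℝ := Real.exp (B * (k ^ 2 * (3 : ℕ))) with hE
  have hE1 : 1 ≤ E := Real.one_le_exp (by positivity)
  have e1 : Real.exp ((3 * B + 4 * K' ^ 2) * k ^ 2) = E * Real.exp (4 * K' ^ 2 * k ^ 2) := by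
    rw [hE, ← Real.exp_add]
    congr 1
    push_cast
    ring
  have e2 : 4 * K' ^ 2 * k ^ 2 + 1 ≤ Real.exp (4 * K' ^ 2 * k ^ 2) := Real.add_one_le_exp _
  have e3 : 4 * K' ^ 2 ≤ 4 * K' ^ 2 * (k : ℝ) ^ 2 := by nlinarith
  have hN4 : 4 * E ≤ N := by
    refine le_trans ?_ hN
    rw [e1]
    nlinarith
  set m : ℕ := N / 2 with hm
  have hm4 : (N : ℝ) / 4 ≤ m := by
    have h1 : N < 2 * (m + 1) := Nat.lt_mul_div_succ N (by norm_num)
    have h2 : (N : ℝ) < 2 * (m + 1) := by exact_mod_cast h1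
    linarith
  have hmE : E ≤ m := by linarith
  have h1 := hB A hA hC hr k 3 (by norm_num) χ m hmE
  have h2 := sums_of_pop A χ K m hr
  have h3 : ((pop (fin A m) χ 3 m).card : ℝ) ≤ K' ^ 2 *
      (((Icc 1 N).filter
        (fun n => ∃ i : Fin k, 4 ≤ rep {a | a ∈ A ∧ χ a = i} n)).card : ℝ) := by
    have h4 : ((Icc 1 (2 * m)).filter
        (fun n => ∃ i : Fin k, 4 ≤ rep {a | a ∈ A ∧ χ a = i} n)).card ≤
        ((Icc 1 N).filter
        (fun n => ∃ i : Fin k, 4 ≤ rep {a | a ∈ A ∧ χ a = i} n)).card := by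
      refine card_le_card (filter_subset_filter _ ?_)
      refine Icc_subset_Icc le_rfl ?_
      rw [hm]
      exact Nat.mul_div_le N 2
    have h5 : ((pop (fin A m) χ 3 m).card : ℝ) ≤ (K : ℝ) ^ 2 * (((Icc 1 (2 * m)).filter
        (fun n => ∃ i : Fin k, 4 ≤ rep {a | a ∈ A ∧ χ a = i} n)).card : ℝ) := by
      exact_mod_cast h2
    refine h5.trans ?_
    have h6 : (K : ℝ) ^ 2 ≤ K' ^ 2 := pow_le_pow_left₀ (by positivity) (by rw [hK']; linarith) 2
    have h7 : ((((Icc 1 (2 * m)).filter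
        (fun n => ∃ i : Fin k, 4 ≤ rep {a | a ∈ A ∧ χ a = i} n)).card : ℕ) : ℝ) ≤
        (((Icc 1 N).filter
        (fun n => ∃ i : Fin k, 4 ≤ rep {a | a ∈ A ∧ χ a = i} n)).card : ℝ) := by
      exact_mod_cast h4
    exact mul_le_mul h6 h7 (by positivity) (by positivity)
  set G : ℝ := (((Icc 1 N).filter
        (fun n => ∃ i : Fin k, 4 ≤ rep {a | a ∈ A ∧ χ a = i} n)).card : ℝ) with hG
  have hG0 : 0 ≤ G := by positivity
  rw [Real.exp_neg, ← hE, ← div_eq_mul_inv] at h1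
  have h8 : (m : ℝ) ≤ K' ^ 2 * G * E := by
    rw [div_le_iff₀ (by linarith)] at h1
    nlinarith
  rw [Real.exp_neg, ← div_eq_mul_inv, div_le_iff₀ (Real.exp_pos _), e1]
  calc (N : ℝ) ≤ 4 * m := by linarith
    _ ≤ 4 * (K' ^ 2 * G * E) := by linarith
    _ = G * (E * (4 * K' ^ 2)) := by ring
    _ ≤ G * (E * Real.exp (4 * K' ^ 2 * k ^ 2)) := by gcongr; linarith

open Classical in
/-- the popular differences in terms of `dif` -/
theorem pop_eq {k : ℕ} (A : Set ℕ) (χ : ℕ → Fin k) (N l : ℕ) :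
    pop (fin A N) χ l N =
      (Icc 1 N).filter (fun d => ∃ i : Fin k, l ≤ dif {a | a ∈ A ∧ χ a = i} N d) := by
  unfold pop
  refine filter_congr fun d _ => ?_
  simp only [deli_fin]

open Classical in
/-- finite unions, differences -/
theorem union_dif (k l : ℕ) (S : Fin k → Set ℕ)
    (hS : ∀ ε : ℝ, 0 < ε → ∃ᶠ N : ℕ in atTop,
      (((Icc 1 N).filter (fun d => ∃ i, l ≤ dif (S i) N d)).card : ℝ) ≤ ε * N)
    (A : Set ℕ) (hAS : A ⊆ ⋃ i, S i) (hA : A.Infinite)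
    (hC : ∃ C, ∀ n ≥ 1, elt A n ≤ C * n ^ 2) (K : ℕ) : ∃ n, K < rep A n := by
  obtain ⟨C, hC⟩ := hC
  by_contra hcon
  push Not at hcon
  obtain ⟨B, hB1, hB⟩ := popular C K
  have hex : ∀ a : ℕ, ∃ i : Fin k, a ∈ A → a ∈ S i := by
    intro a
    by_cases ha : a ∈ A
    · obtain ⟨i, hi⟩ := Set.mem_iUnion.1 (hAS ha)
      exact ⟨i, fun _ => hi⟩
    · obtain ⟨b, hb⟩ := hA.nonempty
      obtain ⟨i, _⟩ := Set.mem_iUnion.1 (hAS hb)
      exact ⟨i, fun h => absurd h ha⟩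
  choose χ hχ using hex
  set E := Real.exp (-(B * ((k : ℝ) ^ 2 * ((l + 1 : ℕ) : ℝ)))) with hE
  have hE0 : 0 < E := Real.exp_pos _
  obtain ⟨N, h1, h2⟩ := ((hS (E / 2) (by positivity)).and_eventually
    (eventually_ge_atTop (⌈Real.exp (B * ((k : ℝ) ^ 2 * ((l + 1 : ℕ) : ℝ)))⌉₊ + 1))).exists
  have h3 : Real.exp (B * ((k : ℝ) ^ 2 * ((l + 1 : ℕ) : ℝ))) ≤ N :=
    (Nat.le_ceil _).trans (Nat.cast_le.2 (by omega))
  have h4 := hB A hA hC hcon k (l + 1) (by omega) χ N h3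
  rw [pop_eq] at h4
  have h5 : ((Icc 1 N).filter (fun d => ∃ i : Fin k, l + 1 ≤ dif {a | a ∈ A ∧ χ a = i} N d)).card ≤
      ((Icc 1 N).filter (fun d => ∃ i, l ≤ dif (S i) N d)).card := by
    refine card_le_card ?_
    intro d hd
    rw [mem_filter] at hd ⊢
    obtain ⟨i, hi⟩ := hd.2
    refine ⟨hd.1, i, ?_⟩
    have := dif_mono (A := {a | a ∈ A ∧ χ a = i}) (B := S i) (by
      rintro a ⟨ha, rfl⟩
      exact hχ a ha) N d
    omega
  have h6 : (N : ℝ) * E ≤ E / 2 * N := by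
    refine h4.trans (le_trans ?_ h1)
    exact_mod_cast h5
  have h7 : (1 : ℝ) ≤ N := by
    have : 1 ≤ N := by omega
    exact_mod_cast this
  nlinarith

open Classical in
/-- finite unions, sums -/
theorem union_rep (k : ℕ) (S : Fin k → Set ℕ)
    (hS : ∀ ε : ℝ, 0 < ε → ∃ᶠ N : ℕ in atTop,
      (((Icc 1 N).filter (fun n => ∃ i, 4 ≤ rep (S i) n)).card : ℝ) ≤ ε * N)
    (A : Set ℕ) (hAS : A ⊆ ⋃ i, S i) (hA : A.Infinite)
    (hC : ∃ C, ∀ n ≥ 1, elt A n ≤ C * n ^ 2) (K : ℕ) : ∃ n, K < rep A n := by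
  obtain ⟨C, hC⟩ := hC
  by_contra hcon
  push Not at hcon
  obtain ⟨B, hB1, hB⟩ := popular_sums C K
  have hex : ∀ a : ℕ, ∃ i : Fin k, a ∈ A → a ∈ S i := by
    intro a
    by_cases ha : a ∈ A
    · obtain ⟨i, hi⟩ := Set.mem_iUnion.1 (hAS ha)
      exact ⟨i, fun _ => hi⟩
    · obtain ⟨b, hb⟩ := hA.nonempty
      obtain ⟨i, _⟩ := Set.mem_iUnion.1 (hAS hb)
      exact ⟨i, fun h => absurd h ha⟩
  choose χ hχ using hex
  set E := Real.exp (-(B * (k : ℝ) ^ 2)) with hE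
  have hE0 : 0 < E := Real.exp_pos _
  obtain ⟨N, h1, h2⟩ := ((hS (E / 2) (by positivity)).and_eventually
    (eventually_ge_atTop (⌈Real.exp (B * (k : ℝ) ^ 2)⌉₊ + 1))).exists
  have h3 : Real.exp (B * (k : ℝ) ^ 2) ≤ N :=
    (Nat.le_ceil _).trans (Nat.cast_le.2 (by omega))
  have h4 := hB A hA hC hcon k χ N h3
  have h5 : ((Icc 1 N).filter (fun n => ∃ i : Fin k, 4 ≤ rep {a | a ∈ A ∧ χ a = i} n)).card ≤
      ((Icc 1 N).filter (fun n => ∃ i, 4 ≤ rep (S i) n)).card := by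
    refine card_le_card ?_
    intro d hd
    rw [mem_filter] at hd ⊢
    obtain ⟨i, hi⟩ := hd.2
    refine ⟨hd.1, i, ?_⟩
    exact hi.trans (rep_mono (by
      rintro a ⟨ha, rfl⟩
      exact hχ a ha) d)
  have h6 : (N : ℝ) * E ≤ E / 2 * N := by
    refine h4.trans (le_trans ?_ h1)
    exact_mod_cast h5
  have h7 : (1 : ℝ) ≤ N := by
    have : 1 ≤ N := by omega
    exact_mod_cast this
  nlinarith

end Pool.Agent.Y940.ES
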