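import Mathlib
import Pool.Agent.Y940.ES.Main
/-!
# Popular monochromatic differences: thresholds
-/

set_option autoImplicit false

open Finset Filter Topology

namespace Pool.Agent.Y940.ES

/-- the density condition `|A ∩ [1, N]| ≫ √N / g(N)` -/
def Dense (g : ℕ → ℝ) (A : Set ℕ) : Prop :=
  ∃ C : ℝ, 0 < C ∧ ∀ᶠ N : ℕ in atTop,
    Real.sqrt (N : ℝ) / g N ≤ C * ((A ∩ Set.Icc 1 N).ncard : ℝ)

theorem final_alg {N E L k K K' h : ℝ} (hN : 1 ≤ N) (hE : 0 < E) (hK : 0 ≤ K)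
    (hKK : K ≤ K') (hh0 : 0 ≤ h) (hLlow : N / (4 * E) ≤ L)
    (hq : L ^ 2 ≤ 4 * k ^ 2 * K ^ 2 * (2 * N + 1) * h) (f2 : 192 * k ^ 2 * K' ^ 2 ≤ E ^ 2) :
    N ≤ E ^ 2 * E ^ 2 * h := by
  have hN0 : 0 < N := by linarith
  have h4 : (N / (4 * E)) ^ 2 ≤ L ^ 2 := pow_le_pow_left₀ (by positivity) hLlow 2
  have h5 := h4.trans hq
  have h6 : N ^ 2 ≤ E ^ 2 * (192 * k ^ 2 * K' ^ 2) * N * h := by
    rw [div_pow, div_le_iff₀ (by positivity)] at h5
    refine h5.trans ?_
    have hKK : K ^ 2 ≤ K' ^ 2 := pow_le_pow_left₀ hK hKK 2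
    have h7 : 2 * N + 1 ≤ 3 * N := by linarith
    calc 4 * k ^ 2 * K ^ 2 * (2 * N + 1) * h * (4 * E) ^ 2
        ≤ 4 * k ^ 2 * K' ^ 2 * (3 * N) * h * (4 * E) ^ 2 := by gcongr
      _ = _ := by ring
  have h8 : N ≤ E ^ 2 * (192 * k ^ 2 * K' ^ 2) * h := by
    have : N * N ≤ (E ^ 2 * (192 * k ^ 2 * K' ^ 2) * h) * N := by nlinarith
    exact le_of_mul_le_mul_right this hN0
  refine h8.trans ?_
  gcongr

theorem aux_c2 {C k l eta Y : ℝ} (hC : 0 < C) (hk : 0 < k) (hl : 0 < l) (he : 0 < eta)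
    (hY : 0 < Y) : 16 * k ^ 2 * l =
      1 / (4 * C ^ 2 * (eta / (64 * C ^ 2 * k ^ 2 * l) * Y)) * (eta * Y) := by
  field_simp
  ring

theorem popular_thresh (g : ℕ → ℝ) (hg0 : ∀ᶠ N in atTop, 0 < g N)
    (hg : Tendsto (fun N : ℕ => g N ^ 2 / Real.log N) atTop (𝓝 0)) (K k l : ℕ) (hl : 1 ≤ l)
    (eta : ℝ) (h0 : 0 < eta) (h1 : eta ≤ 1 / 4) (A : Set ℕ) (hr : ∀ n, rep A n ≤ K)
    (hA : Dense g A) (χ : ℕ → Fin k) :
    ∀ᶠ N : ℕ in atTop, (N : ℝ) ^ (1 - 4 * eta) ≤ ((pop (fin A N) χ l N).card : ℝ) := by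
  have hk : 1 ≤ k := by
    by_contra h
    have : k = 0 := by omega
    subst this
    exact Fin.elim0 (χ 0)
  have hk' : (1 : ℝ) ≤ k := by exact_mod_cast hk
  have hl' : (1 : ℝ) ≤ l := by exact_mod_cast hl
  obtain ⟨C, hC0, hC⟩ := hA
  set K' : ℝ := (K : ℝ) + 1 with hK'
  have hK1 : 1 ≤ K' := by rw [hK']; have : (0 : ℝ) ≤ K := by positivity
                          linarith
  set tau : ℝ := eta / (64 * C ^ 2 * k ^ 2 * l) with htau
  have htau0 : 0 < tau := by rw [htau]; positivity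
  -- a threshold for the density condition
  have hsmall : ∀ᶠ N : ℕ in atTop, g N ^ 2 / Real.log N ≤ tau :=
    (hg.eventually (eventually_le_nhds htau0))
  obtain ⟨N₁, hN₁⟩ := eventually_atTop.1 (hC.and (hg0.and (hsmall.and (eventually_ge_atTop 3))))
  have hgrow : ∀ x : ℕ, N₁ ≤ x → ∀ N : ℕ, x ≤ N →
      Real.sqrt x / Real.sqrt (tau * Real.log N) ≤ C * ((A ∩ Set.Icc 1 x).ncard : ℝ) := by
    intro x hx N hxN
    obtain ⟨h2, h3, h4, h5⟩ := hN₁ x hx
    refine le_trans ?_ h2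
    have hx3 : (3 : ℝ) ≤ x := by exact_mod_cast h5
    have hlog : 0 < Real.log x := Real.log_pos (by linarith)
    have h6 : g x ≤ Real.sqrt (tau * Real.log N) := by
      refine Real.le_sqrt_of_sq_le ?_
      rw [div_le_iff₀ hlog] at h4
      refine h4.trans ?_
      have : Real.log x ≤ Real.log N := Real.log_le_log (by linarith) (by exact_mod_cast hxN)
      gcongr
    exact div_le_div_of_nonneg_left (Real.sqrt_nonneg _) h3 h6
  -- real powers of N
  have hcast : Tendsto (fun N : ℕ => (N : ℝ)) atTop atTop := tendsto_natCast_atTop_atTop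
  have hpow : ∀ y : ℝ, 0 < y → Tendsto (fun N : ℕ => (N : ℝ) ^ y) atTop atTop := fun y hy =>
    (tendsto_rpow_atTop hy).comp hcast
  have e1 := (hpow eta h0).eventually_ge_atTop 4
  have e2 := (hpow (2 * eta) (by positivity)).eventually_ge_atTop (192 * k ^ 2 * K' ^ 2)
  have e3 := (hpow (1 - eta) (by linarith)).eventually_ge_atTop (4 * ((N₁ : ℝ) + 2))
  have e4 := (hpow (1 - 2 * eta) (by linarith)).eventually_ge_atTop (48 * k ^ 2 * K')
  filter_upwards [e1, e2, e3, e4, eventually_ge_atTop 3] with N f1 f2 f3 f4 f5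
  have hN3 : (3 : ℝ) ≤ N := by exact_mod_cast f5
  have hN0 : (0 : ℝ) < N := by linarith
  have hlogN : 0 < Real.log N := Real.log_pos (by linarith)
  set E : ℝ := (N : ℝ) ^ eta with hE
  set M : ℕ := ⌈E⌉₊ with hM
  have hM1 : 1 ≤ M := Nat.one_le_iff_ne_zero.2 (by
    rw [hM]; exact (Nat.ceil_pos.2 (by linarith)).ne')
  have hME : (M : ℝ) ≤ 2 * E := by
    have := Nat.ceil_lt_add_one (by linarith : 0 ≤ E)
    rw [← hM] at this
    linarith
  have hEM : E ≤ M := Nat.le_ceil _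
  set L : ℕ := (N + 1) / M with hL
  have hLM : L * M ≤ N + 1 := Nat.div_mul_le_self _ _
  have hsplit : (N : ℝ) = E * (N : ℝ) ^ (1 - eta) := by
    rw [hE, ← Real.rpow_add hN0]
    have : eta + (1 - eta) = 1 := by ring
    rw [this, Real.rpow_one]
  have hEE : (N : ℝ) ^ (2 * eta) = E ^ 2 := by
    rw [hE, ← Real.rpow_natCast, ← Real.rpow_mul hN0.le]
    congr 1
    push_cast
    ring
  have hsplit2 : (N : ℝ) = E ^ 2 * (N : ℝ) ^ (1 - 2 * eta) := by
    rw [← hEE, ← Real.rpow_add hN0]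
    have : 2 * eta + (1 - 2 * eta) = 1 := by ring
    rw [this, Real.rpow_one]
  have hbig : 4 * E ≤ N := by
    have : (4 : ℝ) ≤ (N : ℝ) ^ (1 - eta) := by
      refine le_trans ?_ f3
      have : (0 : ℝ) ≤ N₁ := by positivity
      linarith
    rw [hsplit]
    nlinarith
  have hLlow : (N : ℝ) / (4 * E) ≤ L := by
    have h1 : N + 1 < M * (L + 1) := Nat.lt_mul_div_succ (N + 1) hM1
    have h2 : (N : ℝ) + 1 < M * (L + 1) := by exact_mod_cast h1
    rw [div_le_iff₀ (by positivity)]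
    nlinarith [(by positivity : (0 : ℝ) ≤ L)]
  have hLN₁ : ((N₁ : ℝ) + 2) ≤ L := by
    refine le_trans ?_ hLlow
    rw [le_div_iff₀ (by positivity), hsplit]
    have hE0 : 0 < E := by linarith
    nlinarith
  have hLN₁' : N₁ + 2 ≤ L := by exact_mod_cast hLN₁
  have hLN : L ≤ N + 1 := Nat.div_le_self _ _
  set c : ℝ := 1 / (2 * C * Real.sqrt (tau * Real.log N)) with hc
  have hst : 0 < Real.sqrt (tau * Real.log N) := Real.sqrt_pos.2 (by positivity)
  have hc2 : c ^ 2 = 1 / (4 * C ^ 2 * (tau * Real.log N)) := by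
    rw [hc, div_pow, mul_pow, mul_pow, Real.sq_sqrt (by positivity), one_pow]
    norm_num
  have hq := quant (fin A N) χ K N L M l c (by positivity) hk hl (by omega) hM1 hLN
    (fun a ha => (mem_fin.1 ha).2) (fun n => (r_fin_le A N n).trans (hr n)) (by
      intro j hj1 hj2
      have hjL : j * L ≤ N + 1 := by
        calc j * L ≤ M * L := Nat.mul_le_mul_right _ hj2
          _ = L * M := mul_comm _ _
          _ ≤ N + 1 := hLM
      have hjL2 : L ≤ j * L := Nat.le_mul_of_pos_left L hj1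
      set x := j * L - 1 with hx
      have hx1 : N₁ + 1 ≤ x := by omega
      have hx2 : x + 1 = j * L := by omega
      have hxN : x ≤ N := by omega
      have h3 := hgrow x (by omega) N hxN
      have h4 : (A ∩ Set.Icc 1 x).ncard ≤ ((fin A N).filter (fun a => a < j * L)).card := by
        rw [← Set.ncard_coe_finset]
        refine Set.ncard_le_ncard ?_ (Finset.finite_toSet _)
        rintro a ⟨ha, ha1, ha2⟩
        rw [mem_coe, mem_filter, mem_fin]
        exact ⟨⟨ha, by omega⟩, by omega⟩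
      have h5 : ((A ∩ Set.Icc 1 x).ncard : ℝ) ≤
          (((fin A N).filter (fun a => a < j * L)).card : ℝ) := by exact_mod_cast h4
      refine le_trans ?_ h5
      have h6 : Real.sqrt ((j * L : ℕ) : ℝ) ≤ 2 * Real.sqrt (x : ℝ) := by
        rw [Real.sqrt_le_left (by positivity), mul_pow, Real.sq_sqrt (by positivity), ← hx2]
        push_cast
        have : (1 : ℝ) ≤ x := by exact_mod_cast (by omega : 1 ≤ x)
        linarith
      calc c * Real.sqrt ((j * L : ℕ) : ℝ) ≤ c * (2 * Real.sqrt (x : ℝ)) := by gcongr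
        _ = (Real.sqrt x / Real.sqrt (tau * Real.log N)) / C := by
            rw [hc]
            field_simp
        _ ≤ (C * ((A ∩ Set.Icc 1 x).ncard : ℝ)) / C := by gcongr
        _ = ((A ∩ Set.Icc 1 x).ncard : ℝ) := by field_simp) (by
      have h2 : eta * Real.log N ≤ Real.log M := by
        rw [Real.le_log_iff_exp_le (by exact_mod_cast hM1)]
        refine le_trans (le_of_eq ?_) hEM
        rw [hE, Real.rpow_def_of_pos hN0]
        congr 1
        ring
      calc (16 : ℝ) * k ^ 2 * l = c ^ 2 * (eta * Real.log N) := by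
            rw [hc2, htau]
            exact aux_c2 hC0 (by linarith) (by linarith) h0 hlogN
        _ ≤ c ^ 2 * Real.log M := by gcongr) (by
      have h3 : (k * Real.sqrt (K * (2 * N + 1))) ^ 2 ≤ (L : ℝ) ^ 2 := by
        rw [mul_pow, Real.sq_sqrt (by positivity)]
        have h4 : (N / (4 * E)) ^ 2 ≤ (L : ℝ) ^ 2 := pow_le_pow_left₀ (by positivity) hLlow 2
        refine le_trans ?_ h4
        rw [div_pow, le_div_iff₀ (by positivity)]
        have h5 : (K : ℝ) ≤ K' := by rw [hK']; linarith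
        have h7 : (2 * (N : ℝ) + 1) ≤ 3 * N := by linarith
        calc (k : ℝ) ^ 2 * (K * (2 * N + 1)) * (4 * E) ^ 2
            ≤ k ^ 2 * (K' * (3 * N)) * (4 * E) ^ 2 := by gcongr
          _ = (E ^ 2 * (48 * k ^ 2 * K')) * N := by ring
          _ ≤ (E ^ 2 * (N : ℝ) ^ (1 - 2 * eta)) * N := by gcongr
          _ = (N : ℝ) ^ 2 := by rw [← hsplit2]; ring
      exact le_of_sq_le_sq h3 (by positivity))
  have h7 : (N : ℝ) ≤ E ^ 2 * E ^ 2 * ((pop (fin A N) χ l N).card : ℝ) := by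
    refine final_alg (K' := K') (by linarith) (by linarith) (Nat.cast_nonneg K)
      (by rw [hK']; linarith)
      (Nat.cast_nonneg _) hLlow hq ?_
    rw [← hEE]
    exact f2
  generalize ((pop (fin A N) χ l N).card : ℝ) = h at h7 ⊢
  have h9 : (N : ℝ) ^ (1 - 4 * eta) * (E ^ 2 * E ^ 2) = N := by
    rw [← hEE, ← Real.rpow_add hN0, ← Real.rpow_add hN0]
    have : 1 - 4 * eta + (2 * eta + 2 * eta) = 1 := by ring
    rw [this, Real.rpow_one]
  have hE4 : 0 < E ^ 2 * E ^ 2 := by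
    have : 0 < E := by linarith
    positivity
  have h10 : (N : ℝ) ^ (1 - 4 * eta) * (E ^ 2 * E ^ 2) ≤ h * (E ^ 2 * E ^ 2) := by
    rw [h9]; linarith
  exact le_of_mul_le_mul_right h10 hE4

open Classical in
/-- `A` is covered by finitely many sets with few popular differences -/
def FewPopular (A : Set ℕ) : Prop :=
  ∃ (k l : ℕ) (S : Fin k → Set ℕ) (ε : ℝ), 0 < ε ∧ A ⊆ ⋃ i, S i ∧
    ∃ᶠ N : ℕ in atTop, (((Icc 1 N).filter (fun d => ∃ i, l ≤ dif (S i) N d)).card : ℝ) ≤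
      (N : ℝ) ^ (1 - ε)

theorem forces_few (g : ℕ → ℝ) (hg0 : ∀ᶠ N in atTop, 0 < g N)
    (hg : Tendsto (fun N : ℕ => g N ^ 2 / Real.log N) atTop (𝓝 0)) (A : Set ℕ)
    (hA : FewPopular A) (hD : Dense g A) (B : ℕ) : ∃ n, B < rep A n := by
  classical
  obtain ⟨k, l, S, ε, hε, hAS, hfreq⟩ := hA
  by_contra hcon
  push Not at hcon
  have hne : A.Nonempty := by
    rw [Set.nonempty_iff_ne_empty]
    rintro rfl
    obtain ⟨C, hC0, hC⟩ := hD
    obtain ⟨N, h1, h2, h3⟩ := (hC.and (hg0.and (eventually_ge_atTop 1))).exists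
    simp only [Set.empty_inter, Set.ncard_empty, Nat.cast_zero, mul_zero] at h1
    have h4 : 0 < Real.sqrt (N : ℝ) := Real.sqrt_pos.2 (by exact_mod_cast h3)
    have := div_pos h4 h2
    linarith
  have hex : ∀ a : ℕ, ∃ i : Fin k, a ∈ A → a ∈ S i := by
    intro a
    by_cases ha : a ∈ A
    · obtain ⟨i, hi⟩ := Set.mem_iUnion.1 (hAS ha)
      exact ⟨i, fun _ => hi⟩
    · obtain ⟨b, hb⟩ := hne
      obtain ⟨i, _⟩ := Set.mem_iUnion.1 (hAS hb)
      exact ⟨i, fun h => absurd h ha⟩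
  choose χ hχ using hex
  set eta : ℝ := min (ε / 8) (1 / 4) with heta
  have h0 : 0 < eta := lt_min (by positivity) (by norm_num)
  have h1 : eta ≤ 1 / 4 := min_le_right _ _
  have h8 : eta ≤ ε / 8 := min_le_left _ _
  have hmain := popular_thresh g hg0 hg B k (l + 1) (by omega) eta h0 h1 A hcon hD χ
  obtain ⟨N, h2, h3, h4⟩ := (hfreq.and_eventually (hmain.and (eventually_ge_atTop 2))).exists
  rw [pop_eq] at h3
  have h5 : ((Icc 1 N).filter (fun d => ∃ i : Fin k, l + 1 ≤ dif {a | a ∈ A ∧ χ a = i} N d)).card ≤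
      ((Icc 1 N).filter (fun d => ∃ i, l ≤ dif (S i) N d)).card := by
    refine card_le_card ?_
    intro d hd
    rw [mem_filter] at hd ⊢
    obtain ⟨i, hi⟩ := hd.2
    refine ⟨hd.1, i, ?_⟩
    have := dif_mono (A := {a | a ∈ A ∧ χ a = i}) (B := S i) (by
      rintro a ⟨ha, rfl⟩
      exact hχ a ha) N d
    omega
  have h6 : (N : ℝ) ^ (1 - 4 * eta) ≤ (N : ℝ) ^ (1 - ε) := by
    refine h3.trans (le_trans ?_ h2)
    exact_mod_cast h5
  have hN : (1 : ℝ) < N := by exact_mod_cast (by omega : 1 < N)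
  rw [Real.rpow_le_rpow_left_iff hN] at h6
  linarith

/-- a set with `r ≤ 3` has no difference with three representations -/
theorem dif_le_two (S : Set ℕ) (hS : ∀ n, rep S n ≤ 3) (N d : ℕ) (hd : d ∈ Icc 1 N) :
    dif S N d ≤ 2 := by
  classical
  by_contra h
  push Not at h
  have h1 := sums_of_pop S (fun _ => (0 : Fin 1)) 3 N hS
  have h2 : ((Icc 1 (2 * N)).filter
      (fun n => ∃ i : Fin 1, 4 ≤ rep {a | a ∈ S ∧ (0 : Fin 1) = i} n)) = ∅ := by
    rw [filter_eq_empty_iff]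
    rintro n _ ⟨i, hi⟩
    have := rep_mono (A := {a | a ∈ S ∧ (0 : Fin 1) = i}) (B := S) (fun a ha => ha.1) n
    have := hS n
    omega
  rw [h2, card_empty, mul_zero, Nat.le_zero, card_eq_zero] at h1
  have h3 : d ∈ pop (fin S N) (fun _ => (0 : Fin 1)) 3 N := by
    rw [pop_eq, mem_filter]
    refine ⟨hd, 0, ?_⟩
    have : {a | a ∈ S ∧ (0 : Fin 1) = 0} = S := by
      ext a
      simp
    rw [this]
    exact h
  rw [h1] at h3
  exact absurd h3 (notMem_empty d)

theorem few_of_sidon (A : Set ℕ) (k : ℕ) (S : Fin k → Set ℕ) (hAS : A ⊆ ⋃ i, S i)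
    (hS : ∀ i n, rep (S i) n ≤ 3) : FewPopular A := by
  refine ⟨k, 3, S, 1, one_pos, hAS, Frequently.of_forall fun N => ?_⟩
  have : (Icc 1 N).filter (fun d => ∃ i, 3 ≤ dif (S i) N d) = ∅ := by
    rw [filter_eq_empty_iff]
    rintro d hd ⟨i, hi⟩
    have := dif_le_two (S i) (hS i) N d hd
    omega
  rw [this]
  simp

end Pool.Agent.Y940.ES
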